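import Pool.Agent.H721.MV.B
import Pool.Agent.H525.MV.Stm

/-! Subtask 2759 (for helper525): `S_COD`, the common zeros of two polynomials modulo `p`. -/

set_option autoImplicit false

namespace Pool.Agent.H721.MV

open Finset MvPolynomial
open Pool.Agent.H525.MV (red S_COD)

variable {ι : Type}

lemma coef_bd [Fintype ι] (u : ι → ℤ) (D : ℕ) : ∃ (K : ℝ) (E : ℕ), 1 ≤ K ∧
    ∀ G : MvPolynomial ι ℤ, G.totalDegree ≤ D → ∀ H : ℝ, 0 ≤ H →
      (∀ s, |((coeff s G : ℤ) : ℝ)| ≤ H) → ∀ j, n1 ((psi u G).coeff j) ≤ K * H ∧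
        ((psi u G).coeff j).totalDegree ≤ E := by
  classical
  set S : Finset (ι →₀ ℕ) := Finset.Iic (Finsupp.equivFunOnFinite.symm fun _ => D) with hS
  set a : (ι →₀ ℕ) → ℕ → MvPolynomial ι ℤ := fun s j => (psi u (monomial s 1)).coeff j with ha
  refine ⟨1 + ∑ s ∈ S, ∑ j ∈ Finset.range (D + 1), n1 (a s j),
    ∑ s ∈ S, ∑ j ∈ Finset.range (D + 1), (a s j).totalDegree, ?_, ?_⟩
  · have : 0 ≤ ∑ s ∈ S, ∑ j ∈ Finset.range (D + 1), n1 (a s j) :=
      Finset.sum_nonneg fun s _ => Finset.sum_nonneg fun j _ => n1_nonneg _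
    linarith
  · intro G hG H hH hc j
    have hsub : G.support ⊆ S := by
      intro s hs
      rw [hS, Finset.mem_Iic]
      intro i
      have h1 := (totalDegree_le_degree hs).trans hG
      have h2 : s i ≤ s.degree := Finsupp.le_degree i s
      show s i ≤ D
      omega
    have hcoef : (psi u G).coeff j = ∑ s ∈ G.support, C (coeff s G) * a s j := by
      rw [psi_eq_sum, Polynomial.finsetSum_coeff]
      refine Finset.sum_congr rfl fun s _ => ?_
      have : (monomial s (coeff s G) : MvPolynomial ι ℤ) = C (coeff s G) * monomial s 1 := by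
        rw [C_mul_monomial, mul_one]
      rw [this, map_mul, psi_C, Polynomial.coeff_C_mul]
    rcases Nat.lt_or_ge D j with hj | hj
    · have h0 : (psi u G).coeff j = 0 :=
        Polynomial.coeff_eq_zero_of_natDegree_lt (((natDegree_psi u G).trans hG).trans_lt hj)
      rw [h0, n1_zero, totalDegree_zero]
      refine ⟨?_, Nat.zero_le _⟩
      have : 0 ≤ ∑ s ∈ S, ∑ j ∈ Finset.range (D + 1), n1 (a s j) :=
        Finset.sum_nonneg fun s _ => Finset.sum_nonneg fun j _ => n1_nonneg _
      positivity
    · have hjr : j ∈ Finset.range (D + 1) := Finset.mem_range.2 (by omega)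
      constructor
      · rw [hcoef]
        refine (n1_sum _ _).trans ?_
        calc ∑ s ∈ G.support, n1 (C (coeff s G) * a s j)
            ≤ ∑ s ∈ G.support, (∑ j ∈ Finset.range (D + 1), n1 (a s j)) * H := by
              refine Finset.sum_le_sum fun s _ => (n1_C_mul _ _).trans ?_
              rw [mul_comm]
              refine mul_le_mul ?_ (hc s) (abs_nonneg _)
                (Finset.sum_nonneg fun _ _ => n1_nonneg _)
              exact Finset.single_le_sum (f := fun j => n1 (a s j)) (fun _ _ => n1_nonneg _) hjr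
          _ ≤ ∑ s ∈ S, (∑ j ∈ Finset.range (D + 1), n1 (a s j)) * H :=
              Finset.sum_le_sum_of_subset_of_nonneg hsub fun s _ _ =>
                mul_nonneg (Finset.sum_nonneg fun _ _ => n1_nonneg _) hH
          _ = (∑ s ∈ S, ∑ j ∈ Finset.range (D + 1), n1 (a s j)) * H := by rw [Finset.sum_mul]
          _ ≤ _ := by nlinarith
      · rw [hcoef]
        refine (totalDegree_finsetSum _ _).trans (Finset.sup_le fun s hs => ?_)
        refine (totalDegree_mul _ _).trans ?_
        rw [totalDegree_C, zero_add]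
        calc (a s j).totalDegree ≤ ∑ j ∈ Finset.range (D + 1), (a s j).totalDegree :=
              Finset.single_le_sum (f := fun j => (a s j).totalDegree) (fun _ _ => Nat.zero_le _) hjr
          _ ≤ _ := Finset.single_le_sum
              (f := fun s => ∑ j ∈ Finset.range (D + 1), (a s j).totalDegree)
              (fun _ _ => Nat.zero_le _) (hsub hs)

/-- Schwartz–Zippel over `ZMod p` -/
lemma sz {p : ℕ} [Fact p.Prime] [Fintype ι] {P : MvPolynomial ι (ZMod p)} (hP : P ≠ 0) :
    p * Nat.card {x : ι → ZMod p // eval x P = 0} ≤ P.totalDegree * p ^ Fintype.card ι := by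
  classical
  have hp : 0 < p := (Fact.out : p.Prime).pos
  set e := Fintype.equivFin ι with he
  set Q : MvPolynomial (Fin (Fintype.card ι)) (ZMod p) := rename e P with hQ
  have hQ0 : Q ≠ 0 := by
    intro h
    apply hP
    apply rename_injective e e.injective
    rw [← hQ, h, map_zero]
  have h1 := schwartz_zippel_totalDegree hQ0 (Finset.univ : Finset (ZMod p))
  have h2 : Q.totalDegree ≤ P.totalDegree := totalDegree_rename_le _ _
  have h3 : Nat.card {x : ι → ZMod p // eval x P = 0} =
      #{f ∈ Fintype.piFinset fun _ : Fin (Fintype.card ι) => (Finset.univ : Finset (ZMod p)) |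
        eval f Q = 0} := by
    rw [Nat.card_eq_fintype_card, Fintype.card_subtype]
    refine Finset.card_bij (fun x _ => x ∘ e.symm) ?_ ?_ ?_
    · intro x hx
      rw [Finset.mem_filter] at hx ⊢
      refine ⟨by simp, ?_⟩
      rw [hQ, eval_rename]
      have : (x ∘ e.symm) ∘ e = x := by
        ext i; simp
      rw [this]
      exact hx.2
    · intro x _ y _ h
      ext i
      have := congrFun h (e i)
      simpa using this
    · intro f hf
      refine ⟨f ∘ e, ?_, ?_⟩
      · rw [Finset.mem_filter] at hf ⊢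
        refine ⟨Finset.mem_univ _, ?_⟩
        rw [hQ, eval_rename] at hf
        exact hf.2
      · ext i; simp
  rw [← h3, Finset.card_univ, ZMod.card] at h1
  have hpq : (0 : ℚ≥0) < p := by exact_mod_cast hp
  rw [div_le_div_iff₀ (by positivity) hpq] at h1
  have h4 : Nat.card {x : ι → ZMod p // eval x P = 0} * p ≤ Q.totalDegree * p ^ Fintype.card ι := by
    exact_mod_cast h1
  calc p * Nat.card {x : ι → ZMod p // eval x P = 0} =
        Nat.card {x : ι → ZMod p // eval x P = 0} * p := mul_comm _ _
    _ ≤ Q.totalDegree * p ^ Fintype.card ι := h4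
    _ ≤ _ := Nat.mul_le_mul_right _ h2

lemma sz' {p : ℕ} [Fact p.Prime] [Fintype ι] {P : MvPolynomial ι (ZMod p)} (hP : P ≠ 0) :
    Nat.card {x : ι → ZMod p // eval x P = 0} ≤ P.totalDegree * p ^ (Fintype.card ι - 1) := by
  have hp : 0 < p := (Fact.out : p.Prime).pos
  have h := sz hP
  rcases Nat.eq_zero_or_pos (Fintype.card ι) with h0 | h0
  · rw [h0] at h ⊢
    simp only [pow_zero, mul_one, zero_le, Nat.sub_eq_zero_of_le] at h ⊢
    exact (Nat.le_mul_of_pos_left _ hp).trans h
  · obtain ⟨k, hk⟩ := Nat.exists_eq_add_of_le' h0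
    rw [hk] at h ⊢
    rw [Nat.add_sub_cancel]
    rw [pow_succ, ← mul_assoc, mul_comm p] at h
    exact Nat.le_of_mul_le_mul_right h hp

lemma red_ne_zero {p : ℕ} {P : MvPolynomial ι ℤ} (hP : P ≠ 0) (h : n1 P < p) : red P p ≠ 0 := by
  obtain ⟨s, hs⟩ := MvPolynomial.ne_zero_iff.1 hP
  intro h0
  have h1 : coeff s (red P p) = 0 := by rw [h0, coeff_zero]
  rw [red, coeff_map, eq_intCast, ZMod.intCast_zmod_eq_zero_iff_dvd] at h1
  have h2 := Int.le_of_dvd (abs_pos.2 hs) ((dvd_abs _ _).2 h1)
  have h3 : (p : ℝ) ≤ |((coeff s P : ℤ) : ℝ)| := by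
    rw [← Int.cast_abs]
    exact_mod_cast h2
  have h4 := coeff_le_n1 P s
  linarith

lemma ev_red {p : ℕ} (x : ι → ZMod p) (t : ZMod p) (u : ι → ℤ) (F : MvPolynomial ι ℤ) :
    ev x t (psi u F) = eval (fun i => x i + (u i : ZMod p) * t) (red F p) := by
  rw [ev_psi, red, eval_map]
  rfl

/-- counting along the lines in the direction `u` -/
lemma count {p : ℕ} [Fact p.Prime] [Fintype ι] (u : ι → ℤ) {F G ρ : MvPolynomial ι ℤ} {c : ℤ}
    (hcoef : (psi u F).coeff F.totalDegree = C c) (hc : (c : ZMod p) ≠ 0)
    (hρ : ∀ (y : ι → ZMod p) (t : ZMod p), ev y t (psi u F) = 0 → ev y t (psi u G) = 0 →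
      eval y (red ρ p) = 0) :
    p * Nat.card {x : ι → ZMod p // eval x (red F p) = 0 ∧ eval x (red G p) = 0} ≤
      F.totalDegree * Nat.card {x : ι → ZMod p // eval x (red ρ p) = 0} := by
  classical
  set Z : Finset (ι → ZMod p) :=
    Finset.univ.filter fun x => eval x (red F p) = 0 ∧ eval x (red G p) = 0 with hZ
  set Y : Finset (ι → ZMod p) := Finset.univ.filter fun x => eval x (red ρ p) = 0 with hY
  have e1 : Nat.card {x : ι → ZMod p // eval x (red F p) = 0 ∧ eval x (red G p) = 0} = Z.card := by
    rw [Nat.card_eq_fintype_card, Fintype.card_subtype]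
  have e2 : Nat.card {x : ι → ZMod p // eval x (red ρ p) = 0} = Y.card := by
    rw [Nat.card_eq_fintype_card, Fintype.card_subtype]
  have e3 : p * Z.card = (Z ×ˢ (Finset.univ : Finset (ZMod p))).card := by
    rw [Finset.card_product, Finset.card_univ, ZMod.card, mul_comm]
  rw [e1, e2, e3]
  refine Finset.card_le_mul_card_image_of_maps_to
    (f := fun q : (ι → ZMod p) × ZMod p => fun i => q.1 i + (u i : ZMod p) * q.2) ?_ _ ?_
  · rintro ⟨x, t⟩ hq
    rw [Finset.mem_product, hZ, Finset.mem_filter] at hq
    rw [hY, Finset.mem_filter]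
    refine ⟨Finset.mem_univ _, ?_⟩
    have h1 : (fun i => (x i + (u i : ZMod p) * t) + (u i : ZMod p) * (-t)) = x := by
      ext i; ring
    refine hρ _ (-t) ?_ ?_
    · rw [ev_red]
      simp only [h1]
      exact hq.1.2.1
    · rw [ev_red]
      simp only [h1]
      exact hq.1.2.2
  · intro y _
    set q : Polynomial (ZMod p) := (psi u F).map (eval₂Hom (Int.castRingHom (ZMod p)) y) with hq
    have hqc : q.coeff F.totalDegree = (c : ZMod p) := by
      rw [hq, Polynomial.coeff_map, hcoef]
      simp
    have hq0 : q ≠ 0 := by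
      intro h
      rw [h, Polynomial.coeff_zero] at hqc
      exact hc hqc.symm
    have hqd : q.natDegree ≤ F.totalDegree := Polynomial.natDegree_map_le.trans (natDegree_psi u F)
    have hroot : ∀ t : ZMod p, q.eval t = ev y t (psi u F) := by
      intro t
      rw [hq, Polynomial.eval_map]
      rfl
    calc _ ≤ q.roots.toFinset.card := by
          refine Finset.card_le_card_of_injOn (fun z : (ι → ZMod p) × ZMod p => -z.2) ?_ ?_
          · rintro ⟨x, t⟩ hz
            rw [Finset.mem_coe, Finset.mem_filter, Finset.mem_product, hZ, Finset.mem_filter] at hz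
            obtain ⟨⟨⟨_, hx, _⟩, _⟩, hy⟩ := hz
            rw [Finset.mem_coe, Multiset.mem_toFinset, Polynomial.mem_roots hq0, Polynomial.IsRoot,
              hroot, ev_red]
            have h1 : (fun i => y i + (u i : ZMod p) * (-t)) = x := by
              ext i
              have := congrFun hy i
              simp only at this
              rw [← this]; ring
            simp only [h1]
            exact hx
          · rintro ⟨x, t⟩ hz ⟨x', t'⟩ hz' h
            rw [Finset.mem_coe, Finset.mem_filter] at hz hz'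
            have ht : t = t' := neg_injective h
            subst ht
            have hy := hz.2.trans hz'.2.symm
            simp only [Prod.mk.injEq, and_true]
            ext i
            have := congrFun hy i
            simp only at this
            exact add_right_cancel this
      _ ≤ Multiset.card q.roots := q.roots.toFinset_card_le
      _ ≤ q.natDegree := q.card_roots'
      _ ≤ F.totalDegree := hqd

/-- **COD.** -/
theorem t_COD : S_COD := by
  classical
  intro ι _ F hF hd D
  obtain ⟨u, c, hc, hcoef⟩ := exists_dir hd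
  obtain ⟨K, E, hK, hKE⟩ := coef_bd u D
  obtain ⟨K', E', hK', hKE'⟩ := coef_bd u F.totalDegree
  set A : ℝ := n1 F with hA
  have hA0 : 0 ≤ A := n1_nonneg F
  set N : ℕ := F.totalDegree + D with hN
  set B : ℝ := K + K' * A with hB
  have hB1 : 1 ≤ B := by
    have : 0 ≤ K' * A := by positivity
    linarith
  refine ⟨1 + |(c : ℝ)| + N.factorial * B ^ N + F.totalDegree * (N * (E + E')), N, ?_, ?_⟩
  · have := abs_nonneg (c : ℝ)
    have : (0 : ℝ) ≤ N.factorial * B ^ N := by positivity
    have : (0 : ℝ) ≤ F.totalDegree * (N * (E + E')) := by positivity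
    linarith
  · intro G hG hFG H hH hco p hp hpC
    have hpf : Fact p.Prime := ⟨hp⟩
    set ρ := (psi u F).resultant (psi u G) F.totalDegree D with hρ
    have hρ0 : ρ ≠ 0 := res_ne_zero u hF.prime hd hFG hc hcoef hG
    have hp0 : (0 : ℝ) < p := by exact_mod_cast hp.pos
    have hHN : 1 ≤ H ^ N := one_le_pow₀ hH
    have hbF : ∀ j, n1 ((psi u F).coeff j) ≤ B * H ∧ ((psi u F).coeff j).totalDegree ≤ E + E' := by
      intro j
      have h := hKE' F le_rfl A hA0 (fun s => coeff_le_n1 F s) j
      refine ⟨?_, by omega⟩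
      have h1 : K' * A ≤ B := by linarith
      have h2 : B ≤ B * H := by nlinarith
      linarith [h.1]
    have hbG : ∀ j, n1 ((psi u G).coeff j) ≤ B * H ∧ ((psi u G).coeff j).totalDegree ≤ E + E' := by
      intro j
      have h := hKE G hG H (by linarith) hco j
      refine ⟨?_, by omega⟩
      have h1 : K * H ≤ B * H := by
        refine mul_le_mul_of_nonneg_right ?_ (by linarith)
        have : 0 ≤ K' * A := by positivity
        linarith
      linarith [h.1]
    have hBH : 0 ≤ B * H := by nlinarith
    have hn1 : n1 ρ ≤ N.factorial * (B * H) ^ N := by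
      refine n1_det _ fun i j => ?_
      exact sylvester_entry _ _ _ _ (fun P => n1 P ≤ B * H) (by rw [n1_zero]; exact hBH)
        (fun i => (hbF i).1) (fun i => (hbG i).1) i j
    have htd : ρ.totalDegree ≤ N * (E + E') := by
      refine totalDegree_det _ fun i j => ?_
      exact sylvester_entry _ _ _ _ (fun P : MvPolynomial ι ℤ => P.totalDegree ≤ E + E')
        (by rw [totalDegree_zero]; exact Nat.zero_le _)
        (fun i => (hbF i).2) (fun i => (hbG i).2) i j
    have hfac : (0 : ℝ) ≤ N.factorial * B ^ N := by positivity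
    have hgN : (0 : ℝ) ≤ F.totalDegree * (N * (E + E')) := by positivity
    have hlt1 : n1 ρ < p := by
      refine hn1.trans_lt (lt_of_le_of_lt ?_ hpC)
      rw [mul_pow, ← mul_assoc]
      refine mul_le_mul_of_nonneg_right ?_ (by positivity)
      have := abs_nonneg (c : ℝ)
      linarith
    have hlt2 : |(c : ℝ)| < p := by
      refine lt_of_le_of_lt ?_ hpC
      have h1 : |(c : ℝ)| ≤ 1 + |(c : ℝ)| + N.factorial * B ^ N + F.totalDegree * (N * (E + E')) := by
        linarith
      exact h1.trans (le_mul_of_one_le_right (by have := abs_nonneg (c : ℝ); linarith) hHN)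
    have hcp : (c : ZMod p) ≠ 0 := by
      rw [Ne, ZMod.intCast_zmod_eq_zero_iff_dvd]
      intro h
      have h2 := Int.le_of_dvd (abs_pos.2 hc) ((dvd_abs _ _).2 h)
      have h3 : (p : ℝ) ≤ |(c : ℝ)| := by
        rw [← Int.cast_abs]
        exact_mod_cast h2
      linarith
    -- the resultant is a combination
    obtain ⟨P, Q, _, _, hPQ⟩ := Polynomial.exists_mul_add_mul_eq_C_resultant (psi u F) (psi u G)
      (m := F.totalDegree) (n := D) (natDegree_psi u F) ((natDegree_psi u G).trans hG)
      (Or.inl hd.ne')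
    have hvan : ∀ (y : ι → ZMod p) (t : ZMod p), ev y t (psi u F) = 0 → ev y t (psi u G) = 0 →
        eval y (red ρ p) = 0 := by
      intro y t h1 h2
      have h3 := congrArg (ev y t) hPQ
      rw [map_add, map_mul, map_mul, h1, h2, zero_mul, zero_mul, add_zero] at h3
      rw [red, eval_map]
      have h4 : ev y t (Polynomial.C ρ) = eval₂ (Int.castRingHom (ZMod p)) y ρ := by
        simp [ev]
      rw [← h4]
      exact h3.symm
    have hcount := count u hcoef hcp hvan
    have hsz := sz' (red_ne_zero hρ0 hlt1)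
    have htd' : (red ρ p).totalDegree ≤ N * (E + E') := (Finset.sup_mono (support_map_subset _ _)).trans htd
    have hnat : p * Nat.card {x : ι → ZMod p // eval x (red F p) = 0 ∧ eval x (red G p) = 0} ≤
        F.totalDegree * ((N * (E + E')) * p ^ (Fintype.card ι - 1)) :=
      hcount.trans (Nat.mul_le_mul_left _ (hsz.trans (Nat.mul_le_mul_right _ htd')))
    have hreal : (p : ℝ) *
        (Nat.card {x : ι → ZMod p // eval x (red F p) = 0 ∧ eval x (red G p) = 0} : ℝ) ≤
        F.totalDegree * (N * (E + E')) * (p : ℝ) ^ (Fintype.card ι - 1) := by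
      have : ((p * Nat.card {x : ι → ZMod p // eval x (red F p) = 0 ∧ eval x (red G p) = 0} : ℕ) : ℝ)
          ≤ ((F.totalDegree * ((N * (E + E')) * p ^ (Fintype.card ι - 1)) : ℕ) : ℝ) := by
        exact_mod_cast hnat
      push_cast at this
      linarith
    refine hreal.trans (mul_le_mul_of_nonneg_right ?_ (by positivity))
    have := abs_nonneg (c : ℝ)
    linarith

end Pool.Agent.H721.MV
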